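import Pool.Agent.Lib.MP_6d0683_nr.Fin

/-!
For a `C^k` diffeomorphism of the sphere, `k >= 2`, which contracts area on an attracting
hemisphere entered by all orbits but one, and has no period doubling cascade, `C^k` and `C^1`
structural stability are equivalent, in both versions.
-/

set_option autoImplicit false

open Set Metric Function

namespace Pool.Agent.Results.MP_6d0683_an.SphereClass

open Pool.Agent.Lib.MP_6d0683_an

theorem result (k : ℕ) (hk : 2 ≤ k) (f : Sph ≃ₜ Sph) (hf : IsDiffeo k f)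
    (hS : ∀ x : Sph, x.1.2 ≤ 0 → (f x).1.2 < 0)
    (hd : ∀ z ∈ closedBall (0 : ℂ) 1, |(fderiv ℝ (loc true true f) z).det| < 1)
    (hN : ∃ p : Sph, ∀ x : Sph, x ≠ p → ∃ n : ℕ, (f^[n] x).1.2 < 0)
    (hc : ¬ ∃ m : ℕ, 1 ≤ m ∧ ∀ j : ℕ, ∃ x, minimalPeriod f x = m * 2 ^ j) :
    (Stable k f ↔ Stable 1 f) ∧ (StableAP k f ↔ StableAP 1 f) := by
  obtain ⟨p, hN⟩ := hN
  have h : Stable k f → StableAP 1 f := fun hs =>
    stableAP_of (hf.1.mono hk) (Pool.Agent.Lib.MP_6d0683_nr.nr_morse_smale hk hf hs hS hd hN hc)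
  exact ⟨⟨fun hs => (h hs).stable, fun hs => hs.up (by omega)⟩,
    ⟨fun hs => h hs.stable, fun hs => hs.up (by omega)⟩⟩

end Pool.Agent.Results.MP_6d0683_an.SphereClass
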